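import Mathlib
import Pool.Agent.W288.ArcDefs
import Pool.Agent.W288.Arc4

set_option autoImplicit false

namespace Pool.Agent.Results.MP_4f92f0_co.NonprojectiveMaximal

open Pool.Agent.W288.Hjelmslev DualNumber

/-- Let `F` be a finite field with `q ≥ 4` elements. Then `R = F[ε] = F[X]/(X ^ 2)` is a finite
chain ring of nilpotency index `2` with residue field of order `q`, and for every `n` with
`q ^ 2 + 2 ≤ n ≤ q ^ 2 + q - 2` there is a maximal `(k, n)`-arc in `PHG(2, R)`, with
`k = q (q + 1) n - q ^ 3`, which has a point of multiplicity `2`. -/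
theorem result (F : Type) [Field F] [Finite F] (hq : 4 ≤ Nat.card F) :
    IsChainRingTwo F[ε] (Nat.card F) ∧
    ∀ n : ℕ, Nat.card F ^ 2 + 2 ≤ n → n ≤ Nat.card F ^ 2 + Nat.card F - 2 →
      ∃ K : Point F[ε] → ℕ,
        IsMaximalArc K (Nat.card F * (Nat.card F + 1) * n - Nat.card F ^ 3) n ∧
          ∃ x, K x = 2 := by
  classical
  haveI := Fintype.ofFinite F
  rw [Nat.card_eq_fintype_card] at *
  exact ⟨Pool.Agent.W288.Arc.isChain, fun n h1 h2 => Pool.Agent.W288.Arc.example_arc h1 (by omega)⟩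

end Pool.Agent.Results.MP_4f92f0_co.NonprojectiveMaximal
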